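import Pool.Agent.J4H43.FR.FA

/-!
# Homogeneous elements of the same length which are linearly independent are free
-/

set_option autoImplicit false

namespace Pool.Agent.J4H13.SW

open Pool.Agent.J4H43.FR

universe u v

variable {k : Type u} [Field k] {Y : Type v}

/-- homogeneous elements of the same length: a relation `∑ H i * P i = 0` is zero in the tensor
product -/
theorem tens {I : Type*} [Fintype I] (φ : FreeAlgebra k Y →ₗ[k] k) (P : I → FreeAlgebra k Y)
    (d : ℕ) : ∀ H : I → FreeAlgebra k Y, (∀ i, Hm d (H i)) → ∑ i, H i * P i = 0 →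
      ∑ i, φ (P i) • H i = 0 := by
  induction d with
  | zero =>
    intro H hH h
    have h1 : ∀ i, H i = algebraMap k _ (eps (H i)) := fun i => by
      rw [← hc_zero_eq, (hH i).self]
    have h2 : ∑ i, eps (H i) • P i = 0 := by
      rw [← h]
      refine Finset.sum_congr rfl fun i _ => ?_
      conv_rhs => rw [h1 i]
      rw [Algebra.smul_def]
    have h3 : ∑ i, eps (H i) * φ (P i) = 0 := by
      have h4 := congrArg φ h2
      rw [map_sum, map_zero] at h4
      rw [← h4]
      refine Finset.sum_congr rfl fun i _ => ?_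
      rw [map_smul, smul_eq_mul]
    have h5 : ∑ i, φ (P i) • H i = algebraMap k _ (∑ i, eps (H i) * φ (P i)) := by
      rw [map_sum]
      refine Finset.sum_congr rfl fun i _ => ?_
      conv_lhs => rw [h1 i]
      rw [Algebra.smul_def, ← map_mul, mul_comm]
    rw [h5, h3, map_zero]
  | succ d ih =>
    intro H hH h
    have he : ∀ i, eps (H i) = 0 := fun i => (hH i).eps_zero (by omega)
    apply eq_zero_of_lq
    · rw [map_sum]
      refine Finset.sum_eq_zero fun i _ => ?_
      rw [map_smul, he, smul_zero]
    · intro y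
      have h1 : ∑ i, lq (H i) y * P i = 0 := by
        have h2 := congrArg (fun z => lq z y) h
        simp only [map_sum, map_zero, Finsupp.coe_finsetSum, Finset.sum_apply,
          Finsupp.zero_apply, lq_mul, he, zero_smul, zero_add] at h2
        exact h2
      have h2 := ih (fun i => lq (H i) y) (fun i m => by
        rw [← lq_hc, hH i (m + 1)]
        by_cases hm : m = d
        · rw [if_pos hm, if_pos (by omega)]
        · rw [if_neg hm, if_neg (by omega), map_zero, Finsupp.zero_apply]) h1
      rw [map_sum, Finsupp.coe_finsetSum, Finset.sum_apply, ← h2]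
      refine Finset.sum_congr rfl fun i _ => ?_
      rw [map_smul, Finsupp.smul_apply]

theorem indep {I : Type*} [Fintype I] {d : ℕ} {H : I → FreeAlgebra k Y} (hH : ∀ i, Hm d (H i))
    (hli : ∀ c : I → k, ∑ i, c i • H i = 0 → c = 0) (P : I → FreeAlgebra k Y)
    (h : ∑ i, H i * P i = 0) (i : I) : P i = 0 := by
  rw [← Module.forall_dual_apply_eq_zero_iff k]
  intro φ
  exact congrFun (hli (fun i => φ (P i)) (tens φ P d H hH h)) i

theorem free_fam_aux {I : Type} [Fintype I] {d : ℕ} (hd : 1 ≤ d) {H : I → FreeAlgebra k Y}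
    (hH : ∀ i, Hm d (H i)) (hli : ∀ c : I → k, ∑ i, c i • H i = 0 → c = 0) (n : ℕ) :
    ∀ G : FreeAlgebra k I, (∀ m, n ≤ m → hc m G = 0) → FreeAlgebra.lift k H G = 0 → G = 0 := by
  induction n with
  | zero =>
    intro G h _
    exact eq_zero_of_hc fun m => h m (Nat.zero_le _)
  | succ n ih =>
    intro G h h0
    have he : eps G = 0 := by
      have h1 : (eps : FreeAlgebra k Y →ₐ[k] k).comp (FreeAlgebra.lift k H) = eps := by
        apply FreeAlgebra.hom_ext
        funext i
        change eps (FreeAlgebra.lift k H (FreeAlgebra.ι k i)) = eps (FreeAlgebra.ι k i)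
        rw [FreeAlgebra.lift_ι_apply, (hH i).eps_zero hd, eps_ι]
      rw [← h1]
      change eps (FreeAlgebra.lift k H G) = 0
      rw [h0, map_zero]
    have hs : ∀ i m, n ≤ m → hc m (lq G i) = 0 := by
      intro i m hm
      rw [← lq_hc, h (m + 1) (by omega), map_zero, Finsupp.zero_apply]
    have hG := decomp G
    rw [he, map_zero, zero_add, Finsupp.sum_fintype _ _ (fun i => by rw [mul_zero])] at hG
    have h1 : ∑ i, H i * FreeAlgebra.lift k H (lq G i) = 0 := by
      rw [hG, map_sum] at h0
      rw [← h0]
      refine Finset.sum_congr rfl fun i _ => ?_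
      rw [map_mul, FreeAlgebra.lift_ι_apply]
    have h2 : ∀ i, lq G i = 0 := fun i => ih _ (hs i) (indep hH hli _ h1 i)
    rw [hG]
    exact Finset.sum_eq_zero fun i _ => by rw [h2 i, mul_zero]

/-- linearly independent homogeneous elements of the same length `d ≥ 1` of a free associative
algebra are free generators of a free algebra -/
theorem free_fam {I : Type} [Fintype I] {d : ℕ} (hd : 1 ≤ d) {H : I → FreeAlgebra k Y}
    (hH : ∀ i, Hm d (H i)) (hli : ∀ c : I → k, ∑ i, c i • H i = 0 → c = 0)
    {G : FreeAlgebra k I} (hG : FreeAlgebra.lift k H G = 0) : G = 0 := by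
  obtain ⟨N, hN⟩ := sum_hc G
  exact free_fam_aux hd hH hli N G (hN N le_rfl).2 hG

end Pool.Agent.J4H13.SW
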