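import Pool.Agent.J4H43.SW.Stm
import Pool.Agent.J4H13.SW.Core

/-!
# SW1: families of homogeneous elements of the same length
-/

set_option autoImplicit false

namespace Pool.Agent.J4H13.SW

open Pool.Agent.J4H43.FR Pool.Agent.J4H43.SW

universe u

theorem t_SW1 : S_SW1.{u} := fun _ _ _ _ hd _ hH hli _ hG => free_fam hd hH hli hG

end Pool.Agent.J4H13.SW
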